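import Pool.Agent.Lib.MP_c03ca8_nt.D.Last

/-!
A share `4 ^ (-m)` of the subsets with `m + 1` elements of a large admissible set have translates that
consist of primes in a positive proportion of the intervals between consecutive fifth powers.
-/

namespace Pool.Agent.Results.MP_c03ca8_nt.DicksonShare

theorem result : ∀ m : ℕ, 1 ≤ m → ∀ ε : ℝ, 0 < ε → ∃ K0 : ℕ, ∀ H : Finset ℕ, K0 ≤ H.card →
    (∀ p : ℕ, p.Prime → ∃ a : ℕ, ∀ b ∈ H, ¬ p ∣ a + b) →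
      ∃ c : ℝ, 0 < c ∧ ∃ N0 : ℕ, ∀ N : ℕ, N0 ≤ N →
        ((1 / 4 : ℝ) ^ m - ε) * (H.card.choose (m + 1) : ℝ) ≤
          Set.ncard {T : Finset ℕ | T ⊆ H ∧ T.card = m + 1 ∧
            c * N ≤ Set.ncard {n : ℕ | 1 ≤ n ∧ n ≤ N ∧ ∃ u : ℕ, n ^ 5 < u ∧
              ∀ b ∈ T, (u + b).Prime ∧ u + b < (n + 1) ^ 5}} := by
  intro m hm ε hε
  obtain ⟨K0, hK⟩ := Pool.Agent.Lib.MP_c03ca8_nt.D.dickson_share hm hε
  refine ⟨K0, fun H hH adm => ?_⟩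
  obtain ⟨c, hc, N0, hN⟩ := hK H hH adm
  refine ⟨c, hc, N0, fun N h => (hN N h).trans (le_of_eq ?_)⟩
  rw [← Set.ncard_coe_finset]
  congr 2
  ext T
  have : {n : ℕ | 1 ≤ n ∧ n ≤ N ∧ ∃ u : ℕ, n ^ 5 < u ∧ ∀ b ∈ T, (u + b).Prime ∧ u + b < (n + 1) ^ 5} =
      Pool.Agent.Lib.MP_c03ca8_nt.D.hit T N := by
    ext n
    simp [Pool.Agent.Lib.MP_c03ca8_nt.D.hit, and_assoc]
  simp only [Finset.coe_filter, Finset.mem_powersetCard, Set.mem_ofPred_eq, this,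
    Set.ncard_coe_finset, and_assoc]

end Pool.Agent.Results.MP_c03ca8_nt.DicksonShare
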