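import Pool.Agent.Lib.MP_c03ca8_nt.H.AllC
import Pool.Agent.Lib.MP_c03ca8_nt.H.Ck
import Pool.Agent.Lib.MP_c03ca8_nt.H.TupB

/-!
A positive proportion of the intervals between consecutive fifth powers contain four primes
within a window of length 2609232.
-/

namespace Pool.Agent.Results.MP_c03ca8_nt.FourPrimes

theorem result : ∃ c : ℝ, 0 < c ∧ ∃ N0 : ℕ, ∀ N : ℕ, N0 ≤ N →
    c * N ≤ Set.ncard {n : ℕ | 1 ≤ n ∧ n ≤ N ∧ ∃ p q r s : ℕ,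
      p.Prime ∧ q.Prime ∧ r.Prime ∧ s.Prime ∧ n ^ 5 < p ∧ p < q ∧ q < r ∧ r < s ∧
        s < (n + 1) ^ 5 ∧ s ≤ p + 2609232} := by
  obtain ⟨D, hD⟩ := Pool.Agent.Lib.MP_c03ca8_nt.H.num
  exact Pool.Agent.Lib.MP_c03ca8_nt.H.four_of_ok hD Pool.Agent.Lib.MP_c03ca8_nt.H.tup

end Pool.Agent.Results.MP_c03ca8_nt.FourPrimes
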