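import Pool.Agent.Lib.MP_c03ca8_nt.N2.FinA
import Pool.Agent.Lib.MP_c03ca8_nt.N2.FinB
import Pool.Agent.Lib.MP_c03ca8_nt.N.Many

/-! Narrow parallelograms of primes between consecutive fifth powers: the boxes for the sides. -/

namespace Pool.Agent.Results.MP_c03ca8_nt.NarrowSharp

open Pool.Agent.Lib.MP_c03ca8_nt.N

theorem result : ∃ C : ℝ, ∃ N0 : ℕ, ∀ n : ℕ, N0 ≤ n → ∀ w γ α β : ℝ,
    C * Real.log (Real.log n) ≤ w → w ^ 50 ≤ Real.log n → 50 ≤ |γ| → α ≤ β →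
    min (α / Real.log n) (α * β / Real.log n ^ 3) = w ^ γ →
    ∀ B : Finset ℕ, (∀ p ∈ B, p.Prime ∧ n ^ 5 < p ∧ p < (n + 1) ^ 5) →
      |({p : ℕ | p ∈ B ∧ ∃ a b : ℕ, 0 < a ∧ a < b ∧ (a : ℝ) ≤ α ∧ (b : ℝ) ≤ β ∧
          p + a ∈ B ∧ p + b ∈ B ∧ p + a + b ∈ B}.ncard : ℝ) -
        (if 0 < γ then (B.card : ℝ) else 0)| ≤ (n : ℝ) ^ 4 / (w * Real.log n) := by
  classical
  obtain ⟨C1, hC1, f1⟩ := fin3
  obtain ⟨C2, hC2, f2⟩ := fin4
  obtain ⟨N0, hN⟩ := params 0 1 one_pos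
  refine ⟨C1 + C2, N0, fun n hn w γ α β hw hw50 hγ hαβ hmin B hB => ?_⟩
  have hL := (hN n hn).1
  have hL0 : 0 < Real.log n := by linarith
  have hll : 1 ≤ Real.log (Real.log n) := by
    rw [Real.le_log_iff_exp_le (by linarith)]
    linarith [Real.exp_one_lt_d9]
  have hw1 : 1 ≤ w := by nlinarith
  rw [← Finset.coe_filter, Set.ncard_coe_finset]
  split_ifs with h
  · rw [← Finset.card_filter_add_card_filter_not (s := B) fun p => ∃ a b : ℕ,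
      0 < a ∧ a < b ∧ (a : ℝ) ≤ α ∧ (b : ℝ) ≤ β ∧ p + a ∈ B ∧ p + b ∈ B ∧ p + a + b ∈ B,
      Nat.cast_add, sub_add_cancel_left, abs_neg, Nat.abs_cast]
    rw [abs_of_pos h] at hγ
    have h50 : w ^ 50 ≤ w ^ γ := by
      rw [← Real.rpow_natCast]
      exact Real.rpow_le_rpow_of_exponent_le hw1 (by exact_mod_cast hγ)
    rw [← hmin, le_min_iff, le_div_iff₀ hL0, le_div_iff₀ (by positivity)] at h50
    by_contra hc
    obtain ⟨p, a, b, h1, h2, h3, h4, h5, h6, h7, h8⟩ := f1 n w α β hL (by nlinarith) hw50 hαβ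
      (by linarith [h50.1]) (by linarith [h50.2]) _
      (fun p hp => hB p (Finset.mem_filter.mp hp).1) (not_le.mp hc).le
    exact (Finset.mem_filter.mp h5).2 ⟨a, b, h1, h2, h3, h4,
      (Finset.mem_filter.mp h6).1, (Finset.mem_filter.mp h7).1, (Finset.mem_filter.mp h8).1⟩
  · rw [sub_zero, Nat.abs_cast]
    rw [abs_of_nonpos (not_lt.mp h)] at hγ
    have h50 : w ^ γ * w ^ 50 ≤ 1 := by
      rw [← Real.rpow_natCast, ← Real.rpow_add (by linarith)]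
      exact Real.rpow_le_one_of_one_le_of_nonpos hw1 (by push_cast; linarith)
    refine f2 n w α β hL (by nlinarith) hw50 ?_ _ fun p hp => ?_
    · rw [← hmin] at h50
      rcases min_choice (α / Real.log n) (α * β / Real.log n ^ 3) with e | e
      · rw [e, div_mul_eq_mul_div, div_le_one hL0] at h50
        exact Or.inl h50
      · rw [e, div_mul_eq_mul_div, div_le_one (by positivity)] at h50
        exact Or.inr h50
    · obtain ⟨hp1, a, b, h1, h2, h3, h4, h5, h6, h7⟩ := Finset.mem_filter.mp hp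
      exact ⟨(hB p hp1).2.1, (hB p hp1).2.2, a, b, h1, h2, h3, h4,
        (hB p hp1).1, (hB _ h5).1, (hB _ h6).1, (hB _ h7).1⟩

/-- The square case, with smaller powers of `w`. -/
theorem square : ∃ C : ℝ, ∃ N0 : ℕ, ∀ n : ℕ, N0 ≤ n → ∀ w γ : ℝ,
    C * Real.log (Real.log n) ≤ w → w ^ 30 ≤ Real.log n → 15 ≤ |γ| →
    ∀ B : Finset ℕ, (∀ p ∈ B, p.Prime ∧ n ^ 5 < p ∧ p < (n + 1) ^ 5) →
      |({p : ℕ | p ∈ B ∧ ∃ a b : ℕ, 0 < a ∧ a < b ∧ (b : ℝ) ≤ Real.log n ^ (3 / 2 : ℝ) * w ^ γ ∧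
          p + a ∈ B ∧ p + b ∈ B ∧ p + a + b ∈ B}.ncard : ℝ) -
        (if 0 < γ then (B.card : ℝ) else 0)| ≤ (n : ℝ) ^ 4 / (w * Real.log n) := by
  classical
  obtain ⟨C1, hC1, f1⟩ := fin1
  obtain ⟨C2, hC2, f2⟩ := fin2
  obtain ⟨N0, hN⟩ := params 0 1 one_pos
  refine ⟨C1 + C2, N0, fun n hn w γ hw hw30 hγ B hB => ?_⟩
  have hL := (hN n hn).1
  have hll : 1 ≤ Real.log (Real.log n) := by
    rw [Real.le_log_iff_exp_le (by linarith)]
    linarith [Real.exp_one_lt_d9]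
  have hw1 : 1 ≤ w := by nlinarith
  have hp0 : 0 ≤ Real.log n ^ (3 / 2 : ℝ) := Real.rpow_nonneg (by linarith) _
  rw [← Finset.coe_filter, Set.ncard_coe_finset]
  split_ifs with h
  · rw [← Finset.card_filter_add_card_filter_not (s := B) fun p => ∃ a b : ℕ,
      0 < a ∧ a < b ∧ (b : ℝ) ≤ Real.log n ^ (3 / 2 : ℝ) * w ^ γ ∧
        p + a ∈ B ∧ p + b ∈ B ∧ p + a + b ∈ B,
      Nat.cast_add, sub_add_cancel_left, abs_neg, Nat.abs_cast]
    by_contra hc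
    obtain ⟨p, a, b, h1, h3, h4, h5, h6, h7, h8⟩ := f1 n w hL (by nlinarith) hw30 _
      (fun p hp => hB p (Finset.mem_filter.mp hp).1) (not_le.mp hc).le
    refine (Finset.mem_filter.mp h5).2 ⟨a, b, h1, h3, h4.trans ?_,
      (Finset.mem_filter.mp h6).1, (Finset.mem_filter.mp h7).1, (Finset.mem_filter.mp h8).1⟩
    rw [abs_of_pos h] at hγ
    refine mul_le_mul_of_nonneg_left ?_ hp0
    rw [← Real.rpow_natCast]
    exact Real.rpow_le_rpow_of_exponent_le hw1 (by exact_mod_cast hγ)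
  · rw [sub_zero, Nat.abs_cast]
    refine f2 n w hL (by nlinarith) hw30 _ fun p hp => ?_
    obtain ⟨hp1, a, b, h1, h3, h4, h5, h6, h7⟩ := Finset.mem_filter.mp hp
    refine ⟨(hB p hp1).2.1, (hB p hp1).2.2, a, b, h1, h3, ?_,
      (hB p hp1).1, (hB _ h5).1, (hB _ h6).1, (hB _ h7).1⟩
    rw [abs_of_nonpos (not_lt.mp h)] at hγ
    refine (mul_le_mul_of_nonneg_right h4 (by positivity)).trans ?_
    rw [mul_assoc, ← Real.rpow_natCast, ← Real.rpow_add (by linarith)]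
    exact mul_le_of_le_one_right hp0
      (Real.rpow_le_one_of_one_le_of_nonpos hw1 (by push_cast; linarith))

/-- The form with a fixed exponent `g ≠ 3 / 2`. -/
theorem power_form (g : ℝ) (hg : g ≠ 3 / 2) : ∃ δ : ℝ, 0 < δ ∧ ∃ N0 : ℕ, ∀ n : ℕ, N0 ≤ n →
    ∀ B : Finset ℕ, (∀ p ∈ B, p.Prime ∧ n ^ 5 < p ∧ p < (n + 1) ^ 5) →
      |({p : ℕ | p ∈ B ∧ ∃ a b : ℕ, 0 < a ∧ a < b ∧ (b : ℝ) ≤ Real.log n ^ g ∧
          p + a ∈ B ∧ p + b ∈ B ∧ p + a + b ∈ B}.ncard : ℝ) -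
        (if 3 / 2 < g then (B.card : ℝ) else 0)| ≤ (n : ℝ) ^ 4 / Real.log n ^ (1 + δ) := by
  obtain ⟨C, N0, h⟩ := square
  have h0 : 0 < |g - 3 / 2| := abs_pos.mpr (sub_ne_zero.mpr hg)
  obtain ⟨κ, hκ, k1, k2⟩ : ∃ κ : ℝ, 0 < κ ∧ 15 * κ ≤ |g - 3 / 2| ∧ κ * 30 ≤ 1 :=
    ⟨min |g - 3 / 2| (1 / 2) / 15, by positivity,
      by linarith [min_le_left |g - 3 / 2| (1 / 2)],
      by linarith [min_le_right |g - 3 / 2| (1 / 2)]⟩
  obtain ⟨N1, hN⟩ := params C κ hκ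
  refine ⟨κ, hκ, max N0 N1, fun n hn B hB => ?_⟩
  obtain ⟨hL, hC⟩ := hN n (le_of_max_le_right hn)
  have hL0 : 0 < Real.log n := by linarith
  have h1 := h n (le_of_max_le_left hn) (Real.log n ^ κ) ((g - 3 / 2) / κ) hC
    (by
      rw [← Real.rpow_natCast, ← Real.rpow_mul hL0.le]
      exact (Real.rpow_le_rpow_of_exponent_le (by linarith) (by exact_mod_cast k2)).trans
        (Real.rpow_one _).le)
    (by rwa [abs_div, abs_of_pos hκ, le_div_iff₀ hκ]) B hB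
  rw [← Real.rpow_mul hL0.le, mul_div_cancel₀ _ hκ.ne', ← Real.rpow_add hL0,
    add_sub_cancel] at h1
  rw [Real.rpow_add hL0, Real.rpow_one, mul_comm]
  simpa only [div_pos_iff_of_pos_right hκ, sub_pos] using h1

/-- A positive proportion of the intervals hold such four primes. -/
theorem share : ∃ C : ℝ, ∃ N0 : ℕ, ∀ N : ℕ, N0 ≤ N → (N : ℝ) / 2500 ≤
    Set.ncard {n : ℕ | 1 ≤ n ∧ n ≤ N ∧ ∃ p a b : ℕ, 0 < a ∧ a < b ∧
      (b : ℝ) ≤ Real.log n ^ (3 / 2 : ℝ) * (C * Real.log (Real.log n)) ^ 15 ∧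
      n ^ 5 < p ∧ p + a + b < (n + 1) ^ 5 ∧
      p.Prime ∧ (p + a).Prime ∧ (p + b).Prime ∧ (p + a + b).Prime} := by
  obtain ⟨C, hC1, f1⟩ := fin1
  obtain ⟨N1, hN⟩ := params (C + 80) (1 / 30) (by norm_num)
  refine ⟨C + 80, third (M := N1) fun n hn A hA hc => ?_⟩
  obtain ⟨hL, hC⟩ := hN n hn
  have hll : 1 ≤ Real.log (Real.log n) := by
    rw [Real.le_log_iff_exp_le (by linarith)]
    linarith [Real.exp_one_lt_d9]
  refine f1 n _ hL (by nlinarith) ?_ A hA (le_trans ?_ hc)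
  · refine (pow_le_pow_left₀ (by positivity) hC 30).trans (le_of_eq ?_)
    rw [← Real.rpow_natCast, ← Real.rpow_mul (by linarith)]
    norm_num
  · gcongr
    nlinarith

end Pool.Agent.Results.MP_c03ca8_nt.NarrowSharp
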