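import Pool.Agent.Lib.MP_c03ca8_nt.Q.PosD

/-!
For every `k ≥ 4`, a positive proportion of the intervals between consecutive `k`-th powers in
every large dyadic range contain the expected order of quadruples `m, m + 2, m + 6, m + 8` with
at most 10 prime factors in all.
-/

namespace Pool.Agent.Results.MP_c03ca8_nt.RecordTen

open Pool.Agent.Lib.MP_c03ca8_nt.Q

theorem result :
    ∀ k : ℕ, 4 ≤ k → ∃ c : ℝ, 0 < c ∧ ∃ x0 : ℕ, ∀ x : ℕ, x0 ≤ x →
      c * (x : ℝ) ^ (1 / (k : ℝ)) ≤ Set.ncard {n : ℕ | x ≤ n ^ k ∧ (n + 1) ^ k ≤ 2 * x ∧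
        c * (n : ℝ) ^ (k - 1) / Real.log n ^ 4 ≤ Set.ncard {m : ℕ | n ^ k < m ∧
          m + 8 < (n + 1) ^ k ∧
            ArithmeticFunction.cardFactors (m * (m + 2) * (m + 6) * (m + 8)) ≤ 10}} := by
  intro k hk
  have h := pd_count k hk ![0, 2, 6, 8] (by decide) pd_adm
  simp only [pd_lt, pd_prod] at h
  exact h

/-- The earlier form, for the pattern of the problem: existence between fifth powers. -/
theorem fifth_exists :
    ∃ c : ℝ, 0 < c ∧ ∃ x0 : ℕ, ∀ x : ℕ, x0 ≤ x →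
      c * (x : ℝ) ^ (1 / 5 : ℝ) ≤ Set.ncard {n : ℕ | x ≤ n ^ 5 ∧ (n + 1) ^ 5 ≤ 2 * x ∧
        ∃ m : ℕ, n ^ 5 < m ∧ m + 8 < (n + 1) ^ 5 ∧
          ArithmeticFunction.cardFactors (m * (m + 2) * (m + 6) * (m + 8)) ≤ 10} := by
  obtain ⟨c, hc, x0, hx0⟩ := result 5 (by norm_num)
  refine ⟨c, hc, x0 + 2, fun x hx => ?_⟩
  have h1 := hx0 x (by omega)
  rw [Nat.cast_ofNat] at h1
  refine h1.trans (Nat.cast_le.2 (Set.ncard_le_ncard ?_ ?_))
  · rintro n ⟨n1, n2, n3⟩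
    refine ⟨n1, n2, ?_⟩
    have h2 : 1 < n := by
      by_contra hn
      have : n ^ 5 ≤ 1 ^ 5 := Nat.pow_le_pow_left (by omega) 5
      omega
    have h3 : (1 : ℝ) < n := by exact_mod_cast h2
    have h4 := Real.log_pos h3
    have h5 : 0 < c * (n : ℝ) ^ (5 - 1) / Real.log n ^ 4 := by positivity
    exact Set.nonempty_of_ncard_ne_zero (Nat.cast_pos.1 (h5.trans_le n3)).ne'
  · refine (Set.finite_Iic (2 * x)).subset fun n hn => ?_
    exact ((Nat.le_succ n).trans (Nat.le_self_pow (by norm_num) _)).trans hn.2.1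

end Pool.Agent.Results.MP_c03ca8_nt.RecordTen
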